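import Pool.Agent.Lib.ECM.All2
import Pool.Agent.Lib.ECM.M_END

/-! A Hodge generic curve over the algebraic numbers in the moduli space of principally polarised
abelian surfaces has only finitely many points of type `E × CM`. -/

namespace Pool.Agent.Results.MP_0704bf_ag.ExCM

open Pool.Agent.Lib.ECM

theorem result (P : Ideal (MvPolynomial Ch Qb)) (hP : P.IsPrime)
    (hd : ringKrullDim (MvPolynomial Ch Qb ⧸ P) = 1)
    (hg : ∃ x ∈ Pts P, ∃ τ, Over x τ ∧ EndZ τ) :
    {x ∈ Pts P | ∃ τ, Over x τ ∧ HasCM τ ∧ ¬ SqCM τ}.Finite :=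
  a_MAIN3 (st_END a_DEP) P hP hd hg

end Pool.Agent.Results.MP_0704bf_ag.ExCM
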