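import Pool.Agent.Lib.HL14.Final

namespace Pool.Agent.Results.MP_0704bf_ag.HodgeLocus

open Pool.Agent.Lib.MP_0704bf_ag Pool.Agent.Lib.HL14

/-- The atypical Hodge locus of the sum of the first cohomologies of `n` families of elliptic curves
over the affine line, with invariants `x_1, ..., x_n` rational functions over the algebraic numbers,
is finite. The ambient Hodge datum is that of any point of the base, for example a Hodge generic
one. -/
theorem result (n : ℕ) (x : Fin n → RatFunc ℂ)
    (halg : ∀ i k, IsAlgebraic ℚ ((x i).num.coeff k) ∧ IsAlgebraic ℚ ((x i).denom.coeff k))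
    (τ₀ : Fin n → UpperHalfPlane) (h₀ : (fun i ↦ jInv (τ₀ i)) ∈ period x '' base x) :
    {t ∈ base x | IsAtypical x τ₀ t}.Finite :=
  main x halg τ₀ h₀

end Pool.Agent.Results.MP_0704bf_ag.HodgeLocus
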