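import Pool.Agent.Lib.QM.QAll2

/-! A Hodge generic curve over the algebraic numbers in the projective space of the curves
`y² = x (x - e₀) ⋯ (x - e₃)` which misses the ten lines of triple roots has only finitely many
points on special curves of the moduli space of principally polarised abelian surfaces. -/

namespace Pool.Agent.Results.MP_0704bf_ag.SpecialCurves

open Pool.Agent.Lib.ECM Pool.Agent.Lib.ECM.QM

theorem result (P : Ideal (MvPolynomial (Fin 4) Qb)) (hP : P.IsPrime)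
    (hd : ringKrullDim (MvPolynomial (Fin 4) Qb ⧸ P) = 2)
    (hc : ∀ e ∈ Zs P, ∀ t : ℂ, t • e ∈ Zs P)
    (ht : ∀ e ∈ Zs P, ∀ i j l : Fin 5, i ≠ j → j ≠ l → i ≠ l →
      rt e i = rt e j → rt e j = rt e l → e = 0)
    (hg : ∃ e ∈ Zs P, ∃ τ, Jac e τ ∧ EndZ τ) :
    {e ∈ Zs P | e 0 = 1 ∧ ∃ τ, Jac e τ ∧ (Sing2 τ ∨ HasCM τ)}.Finite :=
  q_THM P hP hd hc ht hg

end Pool.Agent.Results.MP_0704bf_ag.SpecialCurves
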