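import Pool.Agent.Lib.MP_0704bf_ag.Main

open MvPolynomial Pool.Agent.Lib.MP_0704bf_ag

namespace Pool.Agent.Results.MP_0704bf_ag.ZPModularProportion

theorem result (n c : ℕ) (hcn : c ≤ n) (e : Fin c → Fin n → ℕ) (he : ∀ m i, 1 ≤ e m i) :
    ∃ (N : ℕ) (F₀ : Fin c → MvPolynomial (Fin n) ℤ), 0 < N ∧
      (∀ m i, (F₀ m).degreeOf i ≤ e m i) ∧
      ∀ G : Fin c → MvPolynomial (Fin n) ℂ, (∀ m i, (G m).degreeOf i ≤ e m i) →
        (∀ m s, IsIntegral ℤ ((G m).coeff s)) →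
        ∀ F : Fin c → MvPolynomial (Fin n) ℂ,
          (∀ m, F m = map (Int.castRingHom ℂ) (F₀ m) + C (N : ℂ) * G m) →
          ∀ V : Set (Fin n → ℂ), V = {x | ∀ m, eval x (F m) = 0} →
            V.Nonempty ∧
            (∀ x ∈ V, LinearIndependent ℂ fun m i ↦ eval x (pderiv i (F m))) ∧
            ∀ W, Maximal (fun W ↦ IsSubvariety W ∧ W ⊆ V) W →
              dimOf W + c = n ∧
              ∀ T Z, IsSpecial T → IsSubvariety Z → Z ⊆ W ∩ T →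
                dimOf Z + n ≤ dimOf W + dimOf T := by
  obtain ⟨N, F₀, hN, h1, h2⟩ := main hcn e he
  refine ⟨N, F₀, hN, h1, fun G hG1 hG2 F hF V hV ↦ ?_⟩
  subst hV
  obtain ⟨h3, h4, h5⟩ := h2 G hG1 hG2 F hF
  refine ⟨h3, h4, fun W hW ↦ ⟨dim_component he h5 hW, fun T Z hT hZ hZW ↦ ?_⟩⟩
  have h6 := dim_add_le_special he h5 hT hZ (fun x hx ↦ hW.prop.2 (hZW hx).1)
    fun x hx ↦ (hZW hx).2
  rw [← dim_component he h5 hW, add_left_comm]
  exact add_le_add_right h6 _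

end Pool.Agent.Results.MP_0704bf_ag.ZPModularProportion
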